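import Pool.Agent.D0H65.PS.Exist

/-!
# A `Π¹₁`-definable, `Π¹₁`-sound extension of `Σ¹₁-AC₀` proving its own `Π¹₁`-soundness

The language, the standard model, natural deduction, `Σ¹₁-AC₀`, arithmetizations of provability and
of `Π¹₁` truth and the reflection sentence are defined in `Pool.Agent.D0H65.PS.Defs`.

The theory is `T = Σ¹₁-AC₀ + RFN(⊥)`, where `RFN(⊥)` is `Π¹₁`-reflection for pure logic. Let `s(x_2)`
be an arithmetical definition of `T` and
`τ(x_2) = ∀ X_j (s(x_2) ∧ ∀ x_0 (S(x_0) → (Pr_s(x_0) → θ(x_0, X_j))))`.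
As `T` is `Π¹₁`-sound, `τ` defines `T` in the standard model. In `T`: if
`∀ X_j ∀ x_0 (S(x_0) → (Pr_s(x_0) → θ(x_0, X_j)))` then `Pr_τ` implies `Pr_s`, whence `Π¹₁` truth;
if not, then nothing satisfies `τ`, so that `Pr_τ` is provability in pure logic, and `RFN(⊥)` gives
`Π¹₁` truth.
-/

set_option autoImplicit false

namespace Pool.Agent.Results.MP_51f008_lc.OwnSoundness

open Pool.Agent.D0H65.PS

/-- Correct arithmetizations exist and, for every correct arithmetization `A`, the theory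
`T = Σ¹₁-AC₀ + RFN(⊥)` consists of true sentences, is `Π¹₁`-sound and has a `Π¹₁` definition `τ`
such that `T` proves the `Π¹₁`-reflection sentence of `τ`. -/
theorem result :
    (∃ A : Arithmetization, A.Correct) ∧
    ∀ A : Arithmetization, A.Correct → ∃ T : Set Fm, T = Sigma11AC0 ∪ {A.RFN .bot} ∧
      (∀ φ ∈ T, φ.IsSentence ∧ φ.IsTrue) ∧ Pi11Sound T ∧
      ∃ τ : Fm, τ.IsPi11 ∧ Defines τ T ∧ Thm T (A.RFN τ) := by
  refine ⟨exists_arithmetization, fun A hA => ⟨A.TT, rfl, fun φ hφ =>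
    ⟨Arithmetization.TT_sentence hA hφ, Arithmetization.TT_sat hA hφ _ _⟩,
    Arithmetization.TT_sound hA, A.tau A.sg,
    Arithmetization.general hA (Arithmetization.sg_arith hA) (Arithmetization.sg_defines hA)
      (Arithmetization.TT_sound hA) Arithmetization.TT_thm⟩⟩

end Pool.Agent.Results.MP_51f008_lc.OwnSoundness
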